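import Pool.Agent.Q171.RW.Main

/-!
# MP_c09afc_pr, Q1: `OWUSF` is not the only infinite-step stationary measure

For every `d ≥ 3`, every choice of single-orbit local mechanisms `τ` and every starting vertex
`a`, the assertion that the oriented wired uniform spanning forest `P` is the only infinite-step
stationary measure for rotor walk on `ℤ^d` is false.  In fact if `P` is infinite-step
stationary (which is known for `d ≥ 3`) then `P` is a nontrivial mixture of two mutually
singular infinite-step stationary measures, both different from `P`.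

Idea: there is a summable `h : ℤ^d → ℝ` with integral graph Laplacian, `h a = 0`, and
non-integral increments.  The rotor weights `w_x` with
`w_x (τ_x δ) - w_x δ = h x - h (x + τ_x δ) mod 1` give a total weight `S(ρ) = ∑ w_x(ρ x)` such
that `h (X_t) + S(ρ_t) mod 1` is conserved by rotor walk.  Hence `S(σ(ρ)) = S(ρ) mod 1` for every
`ρ` with transient walk, while `S mod 1` is not almost surely constant under `OWUSF`, because
the rotor at a leaf can be resampled.
-/

namespace Pool.Agent.Results.MP_c09afc_pr.NotUnique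

open MeasureTheory ProbabilityTheory Pool.Agent.Q171.RW

/-- `OWUSF` is not the only infinite-step stationary measure on `ℤ^d`, `d ≥ 3`. -/
theorem result (d : ℕ) (hd : 3 ≤ d) (τ : V d → Equiv.Perm (Dr d)) (hτ : SingleOrbit τ)
    (a : V d) (P : Measure (Cfg d)) (hP : IsOWUSF P) :
    (¬ ∀ μ : Measure (Cfg d), IsStationary τ a μ ↔ μ = P) ∧
    (IsStationary τ a P → ∃ μ₁ μ₂ : Measure (Cfg d),
      IsStationary τ a μ₁ ∧ IsStationary τ a μ₂ ∧ μ₁ ≠ P ∧ μ₂ ≠ P ∧ μ₁ ⟂ₘ μ₂ ∧
      ∃ s : ENNReal, 0 < s ∧ s < 1 ∧ P = s • μ₁ + (1 - s) • μ₂) := by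
  have key : IsStationary τ a P → ∃ μ₁ μ₂ : Measure (Cfg d),
      IsStationary τ a μ₁ ∧ IsStationary τ a μ₂ ∧ μ₁ ≠ P ∧ μ₂ ≠ P ∧ μ₁ ⟂ₘ μ₂ ∧
      ∃ s : ENNReal, 0 < s ∧ s < 1 ∧ P = s • μ₁ + (1 - s) • μ₂ := by
    intro hst
    have := hP.prob
    obtain ⟨A, hA, h1, h2, h3, h4⟩ := main (by omega) τ hτ a hP hst
    have e1 : P[|A] Aᶜ = 0 := by
      rw [cond_apply hA]
      simp
    have e2 : P[|Aᶜ] A = 0 := by
      rw [cond_apply hA.compl]
      simp
    have e3 : P Aᶜ = 1 - P A := prob_compl_eq_one_sub hA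
    refine ⟨P[|A], P[|Aᶜ], h3, h4, ?_, ?_, ⟨Aᶜ, hA.compl, e1, ?_⟩, P A, pos_iff_ne_zero.mpr h1,
      ?_, ?_⟩
    · intro h
      rw [h] at e1
      exact h2 e1
    · intro h
      rw [h] at e2
      exact h1 e2
    · rw [compl_compl]
      exact e2
    · rw [← not_le]
      intro h
      apply h2
      rw [e3]
      exact tsub_eq_zero_of_le h
    · rw [← e3, ProbabilityTheory.cond, ProbabilityTheory.cond, smul_smul, smul_smul,
        ENNReal.mul_inv_cancel h1 (measure_ne_top P A),
        ENNReal.mul_inv_cancel h2 (measure_ne_top P Aᶜ), one_smul, one_smul]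
      exact (Measure.restrict_add_restrict_compl hA).symm
  refine ⟨fun hall => ?_, key⟩
  obtain ⟨μ₁, _, h1, _, h2, _⟩ := key ((hall P).mpr rfl)
  exact h2 ((hall μ₁).mp h1)

end Pool.Agent.Results.MP_c09afc_pr.NotUnique
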